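import Mathlib
import Pool.Agent.Helper834.EC.Defs
import Pool.Agent.Helper834.EC.Upper
import Pool.Agent.Helper834.EC.Lower
import Pool.Agent.Helper834.EC.Dimf4

open Pool.Agent.Helper834.EC

/-- The dimension of the eigencompatibility variety for all `n ≥ 1`, `d ≥ 3`. -/
theorem Pool.Agent.Results.MP_72974f_ag.DimEC.result (n d : ℕ) (hn : 1 ≤ n) (hd : 3 ≤ d) :
    topologicalKrullDim (eigencompatibilityVariety n d) =
      (((n + d).choose d + (d - 1) ^ 2 * (n + d - 1).choose d - 1 -
        (if Even d then 1 else 0) : ℕ) : WithBot ℕ∞) := by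
  have hN := finrank_quot (n := n) (d := d) hn (by omega)
  have hsub : (n + d).choose d + (d - 1) ^ 2 * (n + d - 1).choose d - 1 -
      (if Even d then 1 else 0) = Module.finrank ℂ (Tensor n d ⧸ K0 n d) - 1 := by
    rw [hN]; omega
  rw [hsub]
  apply le_antisymm
  · exact dim_closure_le_of_charts (eigenConfs n d) _ (fun c => dim_chart_le hn (by omega) c)
  · obtain ⟨c, hc⟩ := le_dim_chart (n := n) (d := d) hn hd
    exact hc.trans (le_dim_closure_of_chart (eigenConfs n d) c)
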