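import Mathlib
import Pool.Agent.Helper834.EC.Defs
import Pool.Agent.Helper834.EC.Defs2
import Pool.Agent.Helper834.EC.Upper
import Pool.Agent.Helper834.EC.Lower
import Pool.Agent.Helper834.EC.Dimf4

open Pool.Agent.Helper834.EC

/-- The dimension of the eigencompatibility variety for all `n ≥ 1`, `d ≥ 3`, for every way of
counting multiplicities in the eigenschemes. -/
theorem Pool.Agent.Results.MP_72974f_ag.DimECSchemes.result (n d : ℕ) (hn : 1 ≤ n) (hd : 3 ≤ d)
    (E : Set (Conf n d)) (hE1 : eigenConfs n d ⊆ E) (hE2 : E ⊆ supportConfs n d) :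
    topologicalKrullDim (closure E) =
      (((n + d).choose d + (d - 1) ^ 2 * (n + d - 1).choose d - 1 -
        (if Even d then 1 else 0) : ℕ) : WithBot ℕ∞) := by
  have hN := finrank_quot (n := n) (d := d) hn (by omega)
  have hsub : (n + d).choose d + (d - 1) ^ 2 * (n + d - 1).choose d - 1 -
      (if Even d then 1 else 0) = Module.finrank ℂ (Tensor n d ⧸ K0 n d) - 1 := by
    rw [hN]; omega
  rw [hsub]
  have hmono : ∀ {A B : Set (Conf n d)}, A ⊆ B → topologicalKrullDim A ≤ topologicalKrullDim B := by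
    intro A B h
    exact (Topology.IsEmbedding.inclusion h).isInducing.topologicalKrullDim_le
  apply le_antisymm
  · refine dim_closure_le_of_charts E _ (fun c => dim_chart_le_of hn (by omega) c _ ?_)
    rintro y ⟨h, hy⟩
    obtain ⟨T, hT⟩ := hE2 hy
    have hne : ∀ (i : Ix n d), (fun a => y (i, a)) ≠ (0 : V n) := by
      intro i h0
      have := congrFun h0 (c i)
      rw [h i] at this
      exact one_ne_zero this
    have hmk : ∀ (i : Ix n d), jc c ⟨y, h⟩ i =
        Projectivization.mk ℂ (fun a => y (i, a)) (hne i) := fun i => rfl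
    refine ⟨h, T, ?_, ?_⟩
    · intro k j
      have h1 := hT k (jc c ⟨y, h⟩ (k, j))
      rw [hmk, isEigenpoint_mk_iff] at h1
      apply h1.mp
      show _ ∈ Multiset.map (fun j : Fin (D n d) => jc c ⟨y, h⟩ (k, j)) Finset.univ.val
      rw [Multiset.mem_map]
      exact ⟨j, Finset.mem_univ j, rfl⟩
    · intro k v hv hE
      have h1 := hT k (Projectivization.mk ℂ v hv)
      rw [isEigenpoint_mk_iff] at h1
      have h2 := h1.mpr hE
      have h3 : Projectivization.mk ℂ v hv ∈
        Multiset.map (fun j : Fin (D n d) => jc c ⟨y, h⟩ (k, j)) Finset.univ.val := h2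
      rw [Multiset.mem_map] at h3
      obtain ⟨j, _, hj⟩ := h3
      rw [hmk, Projectivization.mk_eq_mk_iff'] at hj
      obtain ⟨a, ha⟩ := hj
      refine ⟨j, a⁻¹, ?_⟩
      have ha0 : a ≠ 0 := by
        rintro rfl
        rw [zero_smul] at ha
        exact hne (k, j) ha.symm
      show v = a⁻¹ • fun a => y ((k, j), a)
      rw [← ha, smul_smul, inv_mul_cancel₀ ha0, one_smul]
  · obtain ⟨c, hc⟩ := le_dim_chart (n := n) (d := d) hn hd
    exact (hc.trans (le_dim_closure_of_chart (eigenConfs n d) c)).trans (hmono (closure_mono hE1))
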